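import Pool.Agent.Helper69_SBG.Hmg

/-!
Squad SBG, module FSZ: sizes for the operator `f` and its kernel (helper69).
-/

set_option autoImplicit false

namespace Pool.Agent.SBG.H69

open Pool.Agent.SBG Sy

section

variable {k : ℕ}

lemma wtI_ne5 (c : Ix k) : wtI c ≠ 5 := by
  rcases c with ⟨i, s⟩ | j
  · cases s <;> simp [wtI, Sy.wt]
  · have := j.2
    simp only [wtI]
    omega

lemma Dn_central {x : W k} (hx : pv x = 0) : Dn x = 0 := by
  rw [eq_zin_of_pv hx, Dn_zin]

lemma zsmul_eq_zero_W {m : ℤ} (hm : m ≠ 0) {x : W k} (h : m • x = 0) : x = 0 := by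
  funext c
  have h1 := congrFun h c
  rw [Pi.smul_apply, smul_eq_mul] at h1
  exact (mul_eq_zero.1 h1).resolve_left hm

/-- The kernel of `f` modulo the centre. -/
lemma pv_Dn_of_fop (h : Gp k) (hm : h.m ≠ 0) (x : W k) (hx : fop h x = 0) : pv (Dn x) = 0 := by
  have h0 : pv (gh h.m x) = 0 := by rw [← pv_fop, hx, pv_zero]
  have ha : Ring.choose h.m 1 ≠ 0 := by rw [Ring.choose_one_right]; exact hm
  have h1 : Dn (gh h.m x) = 0 := Dn_central h0
  have h2 : Dn (Dn (gh h.m x)) = 0 := by rw [h1, Dn_zero']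
  have e3 : Dn (Dn (Dn x)) = 0 := by
    apply zsmul_eq_zero_W ha
    rw [← h2]
    simp only [gh_eq, Dn_add, Dn_zsmul', Dn_four, Dn_zero', smul_zero, add_zero]
  have e2 : Dn (Dn x) = 0 := by
    apply zsmul_eq_zero_W ha
    rw [← h1]
    simp only [gh_eq, Dn_add, Dn_zsmul', e3, Dn_zero', smul_zero, add_zero]
  have e1 : Ring.choose h.m 1 • Dn x = gh h.m x := by
    rw [gh_eq, e2, Dn_zero', smul_zero, smul_zero, add_zero, add_zero]
  funext c
  have h3 : (Ring.choose h.m 1 • Dn x) (Sum.inl c) = 0 := by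
    rw [e1]
    exact congrFun h0 c
  rw [Pi.smul_apply, smul_eq_mul] at h3
  exact (mul_eq_zero.1 h3).resolve_left ha

lemma kernel_coords (x : W k) (hx : pv (Dn x) = 0) (c : Ix k) (hc : x (Sum.inl c) ≠ 0) :
    c = Sum.inr 2 ∨ isS a1 c ∨ isS b1 c ∨ isS c1 c ∨ isS yb c ∨ isS yc c := by
  have key : ∀ c' : Ix k, Dn x (Sum.inl c') = 0 := fun c' => congrFun hx c'
  rcases c with ⟨i, s⟩ | j
  · have q1 : x (Sum.inl (Sum.inl (i, a3))) = 0 := by
      have := key (Sum.inl (i, a2)); simpa [Dn, DSy] using this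
    have q2 : x (Sum.inl (Sum.inl (i, a2))) = 0 := by
      have := key (Sum.inl (i, a1)); simp only [Dn, DSy] at this; linarith
    have q3 : x (Sum.inl (Sum.inl (i, qb))) = 0 := by
      have := key (Sum.inl (i, b3)); simpa [Dn, DSy] using this
    have q4 : x (Sum.inl (Sum.inl (i, b3))) = 0 := by
      have := key (Sum.inl (i, b2)); simp only [Dn, DSy] at this; linarith
    have q5 : x (Sum.inl (Sum.inl (i, b2))) = 0 := by
      have := key (Sum.inl (i, b1)); simp only [Dn, DSy] at this; linarith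
    have q6 : x (Sum.inl (Sum.inl (i, qc))) = 0 := by
      have := key (Sum.inl (i, c3)); simpa [Dn, DSy] using this
    have q7 : x (Sum.inl (Sum.inl (i, c3))) = 0 := by
      have := key (Sum.inl (i, c2)); simp only [Dn, DSy] at this; linarith
    have q8 : x (Sum.inl (Sum.inl (i, c2))) = 0 := by
      have := key (Sum.inl (i, c1)); simp only [Dn, DSy] at this; linarith
    have q9 : x (Sum.inl (Sum.inl (i, u1))) = 0 := by
      have := key (Sum.inl (i, u2)); simpa [Dn, DSy] using this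
    have q10 : x (Sum.inl (Sum.inl (i, u2))) = 0 := by
      have := key (Sum.inl (i, u3)); simpa [Dn, DSy] using this
    have q11 : x (Sum.inl (Sum.inl (i, u3))) = 0 := by
      have := key (Sum.inl (i, yb)); simpa [Dn, DSy] using this
    have q12 : x (Sum.inl (Sum.inl (i, v1))) = 0 := by
      have := key (Sum.inl (i, v2)); simpa [Dn, DSy] using this
    have q13 : x (Sum.inl (Sum.inl (i, v2))) = 0 := by
      have := key (Sum.inl (i, v3)); simpa [Dn, DSy] using this
    have q14 : x (Sum.inl (Sum.inl (i, v3))) = 0 := by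
      have := key (Sum.inl (i, yc)); simpa [Dn, DSy] using this
    cases s
    · exact Or.inr (Or.inl ⟨i, rfl⟩)
    · exact absurd q2 hc
    · exact absurd q1 hc
    · exact Or.inr (Or.inr (Or.inl ⟨i, rfl⟩))
    · exact absurd q5 hc
    · exact absurd q4 hc
    · exact Or.inr (Or.inr (Or.inr (Or.inl ⟨i, rfl⟩)))
    · exact absurd q8 hc
    · exact absurd q7 hc
    · exact absurd q9 hc
    · exact absurd q10 hc
    · exact absurd q11 hc
    · exact absurd q12 hc
    · exact absurd q13 hc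
    · exact absurd q14 hc
    · exact Or.inr (Or.inr (Or.inr (Or.inr (Or.inl ⟨i, rfl⟩))))
    · exact Or.inr (Or.inr (Or.inr (Or.inr (Or.inr ⟨i, rfl⟩))))
    · exact absurd q3 hc
    · exact absurd q6 hc
  · fin_cases j
    · exfalso
      apply hc
      have := key (Sum.inr 1)
      simpa [Dn] using this
    · exfalso
      apply hc
      have := key (Sum.inr 2)
      simpa [Dn] using this
    · exact Or.inl rfl

/-- Sizes of `f x`. -/
lemma fop_bound {n : ℕ} (hn : 1 ≤ n) (h : Gp k) (A Y : ℤ) (hA : 1 ≤ A) (hY : 0 ≤ Y)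
    (hm0 : 0 < h.m) (hm : h.m ≤ A * n)
    (hh : ∀ c : Ix k, |h.x (Sum.inl c)| ≤ A * (n : ℤ) ^ (wtI c + 1))
    (x : W k) (hx : ∀ c : Ix k, |x (Sum.inl c)| ≤ Y * (n : ℤ) ^ (wtI c)) :
    (∀ c : Ix k, |fop h x (Sum.inl c)| ≤ 41 * A ^ 3 * Y * (n : ℤ) ^ (wtI c)) ∧
    ∀ j, |fop h x (Sum.inr j)| ≤ 2 * |x (Sum.inr j)| + (40 + 1280 * k) * A ^ 4 * Y * (n : ℤ) ^ 6 := by
  have hn1 : (1 : ℤ) ≤ n := by exact_mod_cast hn
  have hn0 : (0 : ℤ) ≤ n := by linarith
  have hma : |h.m| ≤ A * n := by rw [abs_of_pos hm0]; exact hm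
  obtain ⟨t1, t2⟩ := tp_bound hn x Y A hY hA hx h.m hma
  have hA1 : 1 ≤ A ^ 3 := one_le_pow₀ hA
  have hA4 : A ^ 3 ≤ A ^ 4 := pow_le_pow_right₀ hA (by norm_num)
  have hb := bz_bound hn h.x (tp h.m x) (A * n) (40 * A ^ 3 * Y) (by positivity) (by positivity)
    (fun c => by
      have := hh c
      calc |h.x (Sum.inl c)| ≤ A * (n : ℤ) ^ (wtI c + 1) := this
        _ = A * n * (n : ℤ) ^ (wtI c) := by ring) t1
  constructor
  · intro c
    have e : fop h x (Sum.inl c) = tp h.m x (Sum.inl c) - x (Sum.inl c) := by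
      have h1 : pv (fop h x) = pv (gh h.m x) := pv_fop h x
      have h2 := congrFun h1 c
      exact h2
    rw [e]
    have h3 : 0 ≤ Y * (n : ℤ) ^ (wtI c) := by positivity
    have h4 : Y * (n : ℤ) ^ (wtI c) ≤ A ^ 3 * (Y * (n : ℤ) ^ (wtI c)) :=
      le_mul_of_one_le_left h3 hA1
    have h5 := t1 c
    have h6 := hx c
    have h7 := abs_sub (tp h.m x (Sum.inl c)) (x (Sum.inl c))
    linarith
  · intro j
    have e : fop h x (Sum.inr j) = tp h.m x (Sum.inr j) +
        (bz h.x (tp h.m x) j + bz h.x (tp h.m x) j) - x (Sum.inr j) := by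
      rw [fop_apply, two_smul]
      rfl
    rw [e]
    have h5 := t2 j
    have h6 := hb j
    have h7 := abs_sub (tp h.m x (Sum.inr j) + (bz h.x (tp h.m x) j + bz h.x (tp h.m x) j))
      (x (Sum.inr j))
    have h8 := abs_add_le (tp h.m x (Sum.inr j)) (bz h.x (tp h.m x) j + bz h.x (tp h.m x) j)
    have h9 := abs_add_le (bz h.x (tp h.m x) j) (bz h.x (tp h.m x) j)
    have h10 : (n : ℤ) ^ 4 ≤ (n : ℤ) ^ 6 := pow_le_pow_right₀ hn1 (by norm_num)
    have h11 : A ^ 3 * Y * (n : ℤ) ^ 4 ≤ A ^ 4 * Y * (n : ℤ) ^ 6 := by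
      apply mul_le_mul (mul_le_mul_of_nonneg_right hA4 hY) h10 (by positivity) (by positivity)
    have h12 : 16 * (k : ℤ) * (A * n * (40 * A ^ 3 * Y)) * (n : ℤ) ^ 5 =
        640 * k * (A ^ 4 * Y * (n : ℤ) ^ 6) := by ring
    rw [h12] at h6
    have h13 : (40 + 1280 * (k : ℤ)) * A ^ 4 * Y * (n : ℤ) ^ 6 =
        40 * (A ^ 4 * Y * (n : ℤ) ^ 6) + 2 * (640 * k * (A ^ 4 * Y * (n : ℤ) ^ 6)) := by ring
    rw [h13]
    linarith

end

theorem fsz : FszStmt := by
  intro k A
  refine ⟨(40 + 1280 * k) * A ^ 4 + 41 * A ^ 3, ?_⟩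
  intro n hn h hm0 hm hh
  have hn1 : (1 : ℤ) ≤ n := by exact_mod_cast hn
  have hn0 : (0 : ℤ) ≤ n := by linarith
  have hA : (1 : ℤ) ≤ A := by
    by_contra hA
    have h1 : (A : ℤ) = 0 := by
      have : (0 : ℤ) ≤ A := Int.natCast_nonneg A
      omega
    rw [h1, zero_mul] at hm
    omega
  constructor
  · intro c c'
    rcases c' with c' | j'
    · set x : W k := ((n : ℤ) ^ (wtI c')) • Pi.single (Sum.inl c') 1 with hx
      have hx1 : ∀ c : Jx k, |x c| ≤ 1 * (n : ℤ) ^ (wtI c') ∧ (c ≠ Sum.inl c' → x c = 0) := by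
        intro c
        rw [hx]
        constructor
        · have h0 : (0 : ℤ) ≤ (n : ℤ) ^ (wtI c') := by positivity
          rw [Pi.smul_apply, smul_eq_mul, abs_mul]
          rcases eq_or_ne c (Sum.inl c') with rfl | h1
          · rw [Pi.single_eq_same, abs_one, mul_one, one_mul, abs_of_nonneg h0]
          · rw [Pi.single_eq_of_ne h1, abs_zero, mul_zero]
            positivity
        · intro h1
          rw [Pi.smul_apply, Pi.single_eq_of_ne h1, smul_zero]
      have hx2 : ∀ c : Ix k, |x (Sum.inl c)| ≤ 1 * (n : ℤ) ^ (wtI c) := by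
        intro c
        rcases eq_or_ne c c' with rfl | h1
        · exact (hx1 _).1
        · rw [(hx1 _).2 (fun e => h1 (Sum.inl_injective e)), abs_zero]
          positivity
      have hx3 : ∀ j, x (Sum.inr j) = 0 := fun j => (hx1 _).2 (by simp)
      obtain ⟨t1, t2⟩ := fop_bound hn h A 1 hA (by norm_num) hm0 hm hh x hx2
      have e1 : fop h x = ((n : ℤ) ^ (wtI c')) • fop h (Pi.single (Sum.inl c') 1) := by
        rw [hx, map_zsmul]
      have e2 : ∀ c, |fop h x c| = |fop h (Pi.single (Sum.inl c') 1) c| * (n : ℤ) ^ (wtI c') := by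
        intro c
        have h0 : (0 : ℤ) ≤ (n : ℤ) ^ (wtI c') := by positivity
        rw [e1, Pi.smul_apply, smul_eq_mul, abs_mul, mul_comm, abs_of_nonneg h0]
      have e3 : wt (Sum.inl c' : Jx k) = wtI c' := rfl
      rw [e3, if_neg (wtI_ne5 c'), add_zero, ← e2]
      push_cast
      rcases c with c | j
      · have e4 : wt (Sum.inl c : Jx k) = wtI c := rfl
        rw [e4, if_neg (wtI_ne5 c), add_zero]
        refine (t1 c).trans ?_
        apply mul_le_mul_of_nonneg_right _ (by positivity)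
        have : 0 ≤ (40 + 1280 * (k : ℤ)) * A ^ 4 := by positivity
        linarith
      · have e4 : wt (Sum.inr j : Jx k) = 5 := rfl
        rw [e4, if_pos rfl]
        refine (t2 j).trans ?_
        rw [hx3, abs_zero, mul_zero, zero_add, mul_one]
        have h1 : (n : ℤ) ^ 6 ≤ (n : ℤ) ^ (5 + 2) := pow_le_pow_right₀ hn1 (by norm_num)
        apply mul_le_mul _ h1 (by positivity) (by positivity)
        have : 0 ≤ 41 * (A : ℤ) ^ 3 := by positivity
        linarith
    · have h1 : fop h (Pi.single (Sum.inr j') 1) = 0 := by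
        apply fop_central
        funext c
        change (Pi.single (Sum.inr j') 1 : W k) (Sum.inl c) = 0
        exact Pi.single_eq_of_ne (by simp) _
      rw [h1, Pi.zero_apply, abs_zero, zero_mul]
      positivity
  · intro x hx c hc
    exact kernel_coords x (pv_Dn_of_fop h hm0.ne' x hx) c hc

end Pool.Agent.SBG.H69
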