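import Pool.Agent.Helper92_SBG.Rd

/-!
Squad SBG, module HMG: the structure of a subgroup generated by an element `h` with `h.m > 0` and
by elements with `m = 0` (helper69).
-/

set_option autoImplicit false

namespace Pool.Agent.SBG.H69

open Pool.Agent.SBG Sy

section fopfacts

variable {k : ℕ}

/-- `pv` as a homomorphism. -/
def pvh (k : ℕ) : W k →+ V k := AddMonoidHom.mk' pv (fun _ _ => rfl)

@[simp] lemma pvh_apply (x : W k) : pvh k x = pv x := rfl

lemma fop_apply (h : Gp k) (x : W k) :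
    fop h x = tp h.m x + 2 • Bf h.x (tp h.m x) - x := rfl

lemma fop_central (h : Gp k) {x : W k} (hx : pv x = 0) : fop h x = 0 := by
  rw [eq_zin_of_pv hx, fop_apply, tp_zin, Bf_zin_right, smul_zero, add_zero, sub_self]

lemma fop_congr (h : Gp k) {x x' : W k} (hx : pv x = pv x') : fop h x = fop h x' := by
  have h1 : fop h (x - x') = 0 := fop_central h (by rw [pv_sub, hx, sub_self])
  rw [map_sub, sub_eq_zero] at h1
  exact h1

lemma conj_h (h : Gp k) (x : W k) : h * ⟨0, x⟩ * h⁻¹ = ⟨0, fop h x + x⟩ := by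
  rw [Gp.conj0, fop_apply, sub_add_cancel]

lemma Dn_zsmul' (m : ℤ) (x : W k) : Dn (m • x) = m • Dn x := by
  rw [← Dh_apply, map_zsmul, Dh_apply]

lemma Dn_zero' : Dn (0 : W k) = 0 := by
  rw [← Dh_apply, map_zero]

/-- `T ^ m - 1`. -/
def gh (m : ℤ) : W k →+ W k := tp m - AddMonoidHom.id (W k)

lemma gh_apply (m : ℤ) (x : W k) : gh m x = tp m x - x := rfl

lemma gh_eq (m : ℤ) (x : W k) : gh m x = Ring.choose m 1 • Dn x + Ring.choose m 2 • Dn (Dn x) +
    Ring.choose m 3 • Dn (Dn (Dn x)) := by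
  rw [gh_apply, tp_expand, Fx]
  abel

lemma gh_four (m : ℤ) (x : W k) : gh m (gh m (gh m (gh m x))) = 0 := by
  simp only [gh_eq, Dn_add, Dn_zsmul', Dn_four, Dn_zero', smul_zero, add_zero, smul_add]

lemma pv_fop (h : Gp k) (x : W k) : pv (fop h x) = pv (gh h.m x) := by
  have e : fop h x = gh h.m x + (Bf h.x (tp h.m x) + Bf h.x (tp h.m x)) := by
    rw [fop_apply, gh_apply, two_smul]
    abel
  rw [e, pv_add, pv_add, pv_Bf, add_zero, add_zero]

lemma pv_fop_four (h : Gp k) (x : W k) : pv (fop h (fop h (fop h (fop h x)))) = 0 := by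
  rw [pv_fop]
  have e1 : fop h (fop h x) = fop h (gh h.m x) := fop_congr h (pv_fop h x)
  have e2 : fop h (fop h (gh h.m x)) = fop h (gh h.m (gh h.m x)) := fop_congr h (pv_fop h _)
  have e3 : pv (fop h (gh h.m (gh h.m x))) = pv (gh h.m (gh h.m (gh h.m x))) := pv_fop h _
  rw [e1, e2]
  have e4 : ∀ u u' : W k, pv u = pv u' → pv (gh h.m u) = pv (gh h.m u') := by
    intro u u' hu
    rw [← pv_fop, ← pv_fop, fop_congr h hu]
  rw [e4 _ _ e3, gh_four, pv_zero]

end fopfacts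

section decomp

variable {k : ℕ}

lemma zpow_m (h : Gp k) (l : ℤ) : (h ^ l).m = l * h.m := by
  induction l with
  | zero => simp
  | succ l ih => rw [zpow_add_one, Gp.mul_m, ih]; push_cast; ring
  | pred l ih => rw [zpow_sub_one, Gp.mul_m, ih, Gp.inv_m]; ring

/-- The general induction principle on `H`. -/
theorem decomp (h : Gp k) (Ys : Finset (W k)) (H : Subgroup (Gp k))
    (hH : H = Subgroup.closure (insert h ((fun x => (⟨0, x⟩ : Gp k)) '' (Ys : Set (W k)))))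
    (Φ : W k → Prop) (h0 : Φ 0) (hY : ∀ y ∈ Ys, Φ y)
    (hadd : ∀ x x', (⟨0, x⟩ : Gp k) ∈ H → (⟨0, x'⟩ : Gp k) ∈ H → Φ x → Φ x' →
      Φ (x + x' + Bf x x'))
    (hneg : ∀ x, (⟨0, x⟩ : Gp k) ∈ H → Φ x → Φ (-x))
    (hf : ∀ x, (⟨0, x⟩ : Gp k) ∈ H → (Φ x ↔ Φ (fop h x + x))) :
    ∀ g ∈ H, ∃ x, ∃ l : ℤ, g = ⟨0, x⟩ * h ^ l ∧ (⟨0, x⟩ : Gp k) ∈ H ∧ Φ x := by
  have hhH : h ∈ H := by
    rw [hH]; exact Subgroup.subset_closure (Set.mem_insert _ _)
  have cj : ∀ l : ℤ, ∀ x, (⟨0, x⟩ : Gp k) ∈ H → Φ x →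
      ∃ x', h ^ l * ⟨0, x⟩ * (h ^ l)⁻¹ = ⟨0, x'⟩ ∧ (⟨0, x'⟩ : Gp k) ∈ H ∧ Φ x' := by
    intro l
    induction l with
    | zero =>
      intro x hx px
      exact ⟨x, by simp, hx, px⟩
    | succ l ih =>
      intro x hx px
      obtain ⟨x', e, hx', px'⟩ := ih x hx px
      refine ⟨fop h x' + x', ?_, ?_, (hf x' hx').1 px'⟩
      · rw [← conj_h, ← e, zpow_add_one, (Commute.zpow_self h (l : ℤ)).eq]
        group
      · rw [← conj_h]
        exact H.mul_mem (H.mul_mem hhH hx') (H.inv_mem hhH)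
    | pred l ih =>
      intro x hx px
      obtain ⟨x', e, hx', px'⟩ := ih x hx px
      have hc := Gp.conj0 h⁻¹ x'
      rw [inv_inv] at hc
      set x'' := tp (h⁻¹).m x' + 2 • Bf (h⁻¹).x (tp (h⁻¹).m x') with hx''
      have hm : (⟨0, x''⟩ : Gp k) ∈ H := by
        rw [← hc]
        exact H.mul_mem (H.mul_mem (H.inv_mem hhH) hx') hhH
      have e2 : fop h x'' + x'' = x' := by
        have h2 := conj_h h x''
        rw [← hc] at h2
        have h3 : h * (h⁻¹ * ⟨0, x'⟩ * h) * h⁻¹ = (⟨0, x'⟩ : Gp k) := by group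
        rw [h3] at h2
        exact (congrArg Gp.x h2).symm
      refine ⟨x'', ?_, hm, (hf x'' hm).2 (by rw [e2]; exact px')⟩
      rw [← hc, ← e]
      rw [zpow_sub_one, (Commute.zpow_self h (-(l : ℤ))).inv_right.eq]
      group
  intro g hg
  rw [hH] at hg
  have hsub : ∀ g ∈ Subgroup.closure (insert h ((fun x => (⟨0, x⟩ : Gp k)) '' (Ys : Set (W k)))),
      g ∈ H := by
    intro g hg; rw [hH]; exact hg
  refine Subgroup.closure_induction
    (p := fun g _ => ∃ x, ∃ l : ℤ, g = ⟨0, x⟩ * h ^ l ∧ (⟨0, x⟩ : Gp k) ∈ H ∧ Φ x)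
    ?_ ?_ ?_ ?_ hg
  · rintro g (rfl | ⟨y, hy, rfl⟩)
    · refine ⟨0, 1, ?_, H.one_mem, h0⟩
      rw [zpow_one, ← Gp.one_def, one_mul]
    · refine ⟨y, 0, ?_, ?_, hY y hy⟩
      · rw [zpow_zero, mul_one]
      · rw [hH]; exact Subgroup.subset_closure (Set.mem_insert_of_mem _ ⟨y, hy, rfl⟩)
  · refine ⟨0, 0, ?_, H.one_mem, h0⟩
    rw [zpow_zero, ← Gp.one_def, one_mul]
  · rintro _ _ _ _ ⟨x, l, rfl, hx, px⟩ ⟨x', l', rfl, hx', px'⟩
    obtain ⟨x'', e, hx'', px''⟩ := cj l x' hx' px'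
    refine ⟨x + x'' + Bf x x'', l + l', ?_, ?_, hadd x x'' hx hx'' px px''⟩
    · rw [← Gp.mul0, ← e, zpow_add]
      group
    · rw [← Gp.mul0]; exact H.mul_mem hx hx''
  · rintro _ _ ⟨x, l, rfl, hx, px⟩
    have hx2 : (⟨0, -x⟩ : Gp k) ∈ H := by rw [← Gp.inv0]; exact H.inv_mem hx
    obtain ⟨x'', e, hx'', px''⟩ := cj (-l) (-x) hx2 (hneg x hx px)
    refine ⟨x'', -l, ?_, hx'', px''⟩
    rw [← e, ← Gp.inv0]
    group

/-- The induction principle for the part `m = 0`. -/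
theorem decomp0 (h : Gp k) (hm : 0 < h.m) (Ys : Finset (W k)) (H : Subgroup (Gp k))
    (hH : H = Subgroup.closure (insert h ((fun x => (⟨0, x⟩ : Gp k)) '' (Ys : Set (W k)))))
    (Φ : W k → Prop) (h0 : Φ 0) (hY : ∀ y ∈ Ys, Φ y)
    (hadd : ∀ x x', (⟨0, x⟩ : Gp k) ∈ H → (⟨0, x'⟩ : Gp k) ∈ H → Φ x → Φ x' →
      Φ (x + x' + Bf x x'))
    (hneg : ∀ x, (⟨0, x⟩ : Gp k) ∈ H → Φ x → Φ (-x))
    (hf : ∀ x, (⟨0, x⟩ : Gp k) ∈ H → (Φ x ↔ Φ (fop h x + x))) :
    ∀ x, (⟨0, x⟩ : Gp k) ∈ H → Φ x := by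
  intro x hx
  obtain ⟨x', l, e, hx', px'⟩ := decomp h Ys H hH Φ h0 hY hadd hneg hf _ hx
  have h1 := congrArg Gp.m e
  rw [Gp.mul_m, zpow_m, zero_add] at h1
  have h2 : l = 0 := by
    rcases mul_eq_zero.1 h1.symm with h3 | h3
    · exact h3
    · exact absurd h3 hm.ne'
  rw [h2, zpow_zero, mul_one] at e
  have h3 := congrArg Gp.x e
  simp only at h3
  rw [h3]
  exact px'

end decomp

section main

variable {k : ℕ}

/-- the generators `f ^ s y`, `s < 4` -/
def gens (h : Gp k) (Ys : Finset (W k)) : Set (W k) := {x | ∃ y ∈ Ys, ∃ s < 4, x = (fop h)^[s] y}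

/-- the subgroup generated by the `f ^ s y` and the centre -/
def MM (h : Gp k) (Ys : Finset (W k)) : AddSubgroup (W k) :=
  AddSubgroup.closure (gens h Ys ∪ {x | pv x = 0})

/-- the values of the form on the generators -/
def bgens (h : Gp k) (Ys : Finset (W k)) : Set (W k) :=
  {x | ∃ y ∈ Ys, ∃ y' ∈ Ys, ∃ s < 4, ∃ s' < 4, x = Bf ((fop h)^[s] y) ((fop h)^[s'] y')}

lemma mem_MM_central (h : Gp k) (Ys : Finset (W k)) {x : W k} (hx : pv x = 0) : x ∈ MM h Ys :=
  AddSubgroup.subset_closure (Or.inr hx)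

lemma MM_fop (h : Gp k) (Ys : Finset (W k)) {x : W k} (hx : x ∈ MM h Ys) :
    fop h x ∈ MM h Ys := by
  have h1 : MM h Ys ≤ (MM h Ys).comap (fop h) := by
    rw [MM, AddSubgroup.closure_le]
    rintro x (⟨y, hy, s, hs, rfl⟩ | hx)
    · change fop h ((fop h)^[s] y) ∈ MM h Ys
      rw [← Function.iterate_succ_apply' (fop h) s y]
      rcases Nat.lt_or_ge (s + 1) 4 with h4 | h4
      · exact AddSubgroup.subset_closure (Or.inl ⟨y, hy, s + 1, h4, rfl⟩)
      · apply mem_MM_central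
        have h5 : s = 3 := by omega
        subst h5
        exact pv_fop_four h y
    · change fop h x ∈ MM h Ys
      rw [fop_central h hx]
      exact AddSubgroup.zero_mem _
  exact h1 hx

lemma MM_iff (h : Gp k) (Ys : Finset (W k)) (w : W k) :
    w ∈ MM h Ys ↔ fop h w + w ∈ MM h Ys := by
  constructor
  · intro hw
    exact AddSubgroup.add_mem _ (MM_fop h Ys hw) hw
  · intro hu
    have e : w = (fop h w + w) - fop h (fop h w + w) + fop h (fop h (fop h w + w))
        - fop h (fop h (fop h (fop h w + w))) + fop h (fop h (fop h (fop h w))) := by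
      simp only [map_add]
      abel
    rw [e]
    have h1 := MM_fop h Ys hu
    have h2 := MM_fop h Ys h1
    have h3 := MM_fop h Ys h2
    exact AddSubgroup.add_mem _ (AddSubgroup.sub_mem _ (AddSubgroup.add_mem _
      (AddSubgroup.sub_mem _ hu h1) h2) h3) (mem_MM_central h Ys (pv_fop_four h w))

lemma MM_Bf (h : Gp k) (Ys : Finset (W k)) {x x' : W k} (hx : x ∈ MM h Ys) (hx' : x' ∈ MM h Ys) :
    Bf x x' ∈ AddSubgroup.closure (bgens h Ys) := by
  have h1 : ∀ y ∈ Ys, ∀ s < 4, ∀ x' ∈ MM h Ys,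
      Bf ((fop h)^[s] y) x' ∈ AddSubgroup.closure (bgens h Ys) := by
    intro y hy s hs
    have h2 : MM h Ys ≤ (AddSubgroup.closure (bgens h Ys)).comap (Bh k ((fop h)^[s] y)) := by
      rw [MM, AddSubgroup.closure_le]
      rintro x' (⟨y', hy', s', hs', rfl⟩ | hx')
      · exact AddSubgroup.subset_closure ⟨y, hy, y', hy', s, hs, s', hs', rfl⟩
      · change Bf ((fop h)^[s] y) x' ∈ AddSubgroup.closure (bgens h Ys)
        rw [eq_zin_of_pv hx', Bf_zin_right]
        exact AddSubgroup.zero_mem _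
    intro x' hx'
    exact h2 hx'
  have h3 : MM h Ys ≤ (AddSubgroup.closure (bgens h Ys)).comap ((Bh k).flip x') := by
    rw [MM, AddSubgroup.closure_le]
    rintro x (⟨y, hy, s, hs, rfl⟩ | hx)
    · exact h1 y hy s hs x' hx'
    · change Bf x x' ∈ AddSubgroup.closure (bgens h Ys)
      rw [eq_zin_of_pv hx, Bf_zin_left]
      exact AddSubgroup.zero_mem _
  exact h3 hx

lemma bgens_central (h : Gp k) (Ys : Finset (W k)) {b : W k}
    (hb : b ∈ AddSubgroup.closure (bgens h Ys)) : pv b = 0 := by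
  have h1 : AddSubgroup.closure (bgens h Ys) ≤ (pvh k).ker := by
    rw [AddSubgroup.closure_le]
    rintro _ ⟨y, hy, y', hy', s, hs, s', hs', rfl⟩
    exact pv_Bf ((fop h)^[s] y) ((fop h)^[s'] y')
  exact h1 hb

theorem hmg : HmgStmt := by
  intro k h Ys H hm hH
  have hhH : h ∈ H := by
    rw [hH]; exact Subgroup.subset_closure (Set.mem_insert _ _)
  have hYH : ∀ y ∈ Ys, (⟨0, y⟩ : Gp k) ∈ H := by
    intro y hy
    rw [hH]; exact Subgroup.subset_closure (Set.mem_insert_of_mem _ ⟨y, hy, rfl⟩)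
  -- the part `m = 0` lies in `MM`
  have hMM : ∀ x, (⟨0, x⟩ : Gp k) ∈ H → x ∈ MM h Ys := by
    apply decomp0 h hm Ys H hH (fun x => x ∈ MM h Ys)
    · exact AddSubgroup.zero_mem _
    · intro y hy
      exact AddSubgroup.subset_closure (Or.inl ⟨y, hy, 0, by norm_num, rfl⟩)
    · intro x x' _ _ hx hx'
      exact AddSubgroup.add_mem _ (AddSubgroup.add_mem _ hx hx') (mem_MM_central h Ys (pv_Bf _ _))
    · intro x _ hx
      exact AddSubgroup.neg_mem _ hx
    · intro x _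
      exact MM_iff h Ys x
  have hconj : ∀ x, (⟨0, x⟩ : Gp k) ∈ H → (⟨0, fop h x + x⟩ : Gp k) ∈ H := by
    intro x hx
    rw [← conj_h]
    exact H.mul_mem (H.mul_mem hhH hx) (H.inv_mem hhH)
  have hneg : ∀ x, (⟨0, x⟩ : Gp k) ∈ H → (⟨0, -x⟩ : Gp k) ∈ H := by
    intro x hx
    rw [← Gp.inv0]; exact H.inv_mem hx
  have hdiff : ∀ x, (⟨0, x⟩ : Gp k) ∈ H →
      (⟨0, fop h x + Bf (fop h x + x) (-x)⟩ : Gp k) ∈ H := by
    intro x hx
    have h1 := H.mul_mem (hconj x hx) (hneg x hx)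
    rw [Gp.mul0, add_neg_cancel_right] at h1
    exact h1
  refine ⟨?_, ?_, ?_⟩
  · intro g hg
    obtain ⟨x, l, rfl, -, -⟩ := decomp h Ys H hH (fun _ => True) trivial (fun _ _ => trivial)
      (fun _ _ _ _ _ _ => trivial) (fun _ _ _ => trivial) (fun _ _ => Iff.rfl) g hg
    rw [Gp.mul_m, zpow_m, zero_add]
    exact Dvd.intro_left l rfl
  · apply le_antisymm
    · rintro v ⟨g, hg, g0, rfl⟩
      have h1 : g.x ∈ MM h Ys := hMM g.x (by rw [← Gp.eta0 g0]; exact hg)
      have h2 : MM h Ys ≤ (AddSubgroup.closure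
          {v | ∃ y ∈ Ys, ∃ s < 4, v = pv ((fop h)^[s] y)}).comap (pvh k) := by
        rw [MM, AddSubgroup.closure_le]
        rintro x (⟨y, hy, s, hs, rfl⟩ | hx)
        · exact AddSubgroup.subset_closure ⟨y, hy, s, hs, rfl⟩
        · change pv x ∈ AddSubgroup.closure {v | ∃ y ∈ Ys, ∃ s < 4, v = pv ((fop h)^[s] y)}
          rw [show pv x = 0 from hx]
          exact AddSubgroup.zero_mem _
      exact h2 h1
    · rw [AddSubgroup.closure_le]
      rintro _ ⟨y, hy, s, -, rfl⟩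
      induction s with
      | zero => exact ⟨_, hYH y hy, rfl, rfl⟩
      | succ s ih =>
        obtain ⟨g, hg, g0, e⟩ := ih
        rw [Function.iterate_succ_apply']
        have h1 := hdiff g.x (by rw [← Gp.eta0 g0]; exact hg)
        refine ⟨_, h1, rfl, ?_⟩
        change pv (fop h g.x + Bf (fop h g.x + g.x) (-g.x)) = _
        rw [pv_add, pv_Bf, add_zero, fop_congr h e]
  · let C : AddSubgroup (W k) := AddSubgroup.closure (bgens h Ys)
    have hBC : ∀ x x', (⟨0, x⟩ : Gp k) ∈ H → (⟨0, x'⟩ : Gp k) ∈ H → Bf x x' ∈ C :=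
      fun x x' hx hx' => MM_Bf h Ys (hMM x hx) (hMM x' hx')
    have hCc : ∀ b ∈ C, pv b = 0 := fun b hb => bgens_central h Ys hb
    let L : AddSubgroup (W k) :=
      { carrier := {w | ∃ x, (⟨0, x⟩ : Gp k) ∈ H ∧ ∃ b ∈ C, w = x + b}
        zero_mem' := ⟨0, H.one_mem, 0, C.zero_mem, by rw [add_zero]⟩
        add_mem' := by
          rintro _ _ ⟨x, hx, b, hb, rfl⟩ ⟨x', hx', b', hb', rfl⟩
          refine ⟨x + x' + Bf x x', ?_, b + b' - Bf x x', ?_, ?_⟩
          · rw [← Gp.mul0]; exact H.mul_mem hx hx'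
          · exact C.sub_mem (C.add_mem hb hb') (hBC x x' hx hx')
          · abel
        neg_mem' := by
          rintro _ ⟨x, hx, b, hb, rfl⟩
          exact ⟨-x, hneg x hx, -b, C.neg_mem hb, by abel⟩ }
    have hL : ∀ w, w ∈ L ↔ ∃ x, (⟨0, x⟩ : Gp k) ∈ H ∧ ∃ b ∈ C, w = x + b := fun _ => Iff.rfl
    have hNL : ∀ x, (⟨0, x⟩ : Gp k) ∈ H → x ∈ L := fun x hx =>
      ⟨x, hx, 0, C.zero_mem, by rw [add_zero]⟩
    have hCL : ∀ b ∈ C, b ∈ L := fun b hb => ⟨0, H.one_mem, b, hb, by rw [zero_add]⟩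
    refine ⟨L, ?_, fun y hy => hNL y (hYH y hy), ?_, ?_, ?_, fun z hz => hNL _ hz⟩
    · rintro _ ⟨x, hx, b, hb, rfl⟩
      rw [map_add, fop_central h (hCc b hb), add_zero]
      refine ⟨_, hdiff x hx, -Bf (fop h x + x) (-x), ?_, ?_⟩
      · exact C.neg_mem (hBC _ _ (hconj x hx) (hneg x hx))
      · abel
    · intro y hy y' hy' s hs s' hs'
      exact hCL _ (AddSubgroup.subset_closure ⟨y, hy, y', hy', s, hs, s', hs', rfl⟩)
    · set Q : AddSubgroup (W k) := L.map (fop h) ⊔ AddSubgroup.closure ((Ys : Set (W k)) ∪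
        {x | ∃ y ∈ Ys, ∃ y' ∈ Ys, ∃ s < 4, ∃ s' < 4, x = Bf ((fop h)^[s] y) ((fop h)^[s'] y')})
        with hQ
      have hCQ : C ≤ Q := by
        refine le_trans ?_ le_sup_right
        exact AddSubgroup.closure_mono Set.subset_union_right
      have hNQ : ∀ x, (⟨0, x⟩ : Gp k) ∈ H → x ∈ Q := by
        apply decomp0 h hm Ys H hH (fun x => x ∈ Q)
        · exact Q.zero_mem
        · intro y hy
          exact AddSubgroup.mem_sup_right (AddSubgroup.subset_closure (Or.inl hy))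
        · intro x x' hx hx' px px'
          exact Q.add_mem (Q.add_mem px px') (hCQ (hBC x x' hx hx'))
        · intro x _ px
          exact Q.neg_mem px
        · intro x hx
          have h1 : fop h x ∈ Q := AddSubgroup.mem_sup_left ⟨x, hNL x hx, rfl⟩
          exact (AddSubgroup.add_mem_cancel_left Q h1).symm
      rintro _ ⟨x, hx, b, hb, rfl⟩
      exact Q.add_mem (hNQ x hx) (hCQ hb)
    · rintro z ⟨x, hx, b, hb, e⟩
      -- `2 • b` is in `Lam H`
      have hC2 : ∀ b ∈ C, 2 • pz b ∈ Lam H := by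
        have h1 : C ≤ (Lam H).comap (2 • (AddMonoidHom.mk' (fun x : W k => pz x)
            (fun _ _ => rfl) : W k →+ (Fin 2 → ℤ))) := by
          rw [AddSubgroup.closure_le]
          rintro _ ⟨y, hy, y', hy', s, hs, s', hs', rfl⟩
          change 2 • pz (Bf _ _) ∈ Lam H
          rw [pz_Bf]
          -- representatives in `H`
          have rep : ∀ y ∈ Ys, ∀ s : ℕ, ∃ x, (⟨0, x⟩ : Gp k) ∈ H ∧ pv x = pv ((fop h)^[s] y) := by
            intro y hy s
            induction s with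
            | zero => exact ⟨y, hYH y hy, rfl⟩
            | succ s ih =>
              obtain ⟨x, hx, e⟩ := ih
              rw [Function.iterate_succ_apply']
              refine ⟨_, hdiff x hx, ?_⟩
              rw [pv_add, pv_Bf, add_zero, fop_congr h e]
          obtain ⟨x1, hx1, e1⟩ := rep y hy s
          obtain ⟨x2, hx2, e2⟩ := rep y' hy' s'
          rw [← bz_congr e1 e2]
          exact two_bz_mem hx1 hx2
        intro b hb
        exact h1 hb
      have hxc : pv x = 0 := by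
        have h1 := congrArg pv e
        rw [pv_zin, pv_add, hCc b hb, add_zero] at h1
        exact h1.symm
      have hxz : pz x ∈ Lam H := by
        rw [mem_Lam_iff, ← eq_zin_of_pv hxc]
        exact hx
      have h2 : z = pz x + pz b := by
        have h1 := congrArg pz e
        rw [pz_zin, pz_add] at h1
        exact h1
      rw [h2, smul_add]
      exact (Lam H).add_mem ((Lam H).nsmul_mem hxz 2) (hC2 b hb)

end main

end Pool.Agent.SBG.H69
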