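import Pool.Agent.Helper92_SBG.Rd

/-!
Squad SBG, module SIZ: sizes of the elements `x h ^ (-l)` (helper69).
-/

set_option autoImplicit false

namespace Pool.Agent.SBG.H69

open Pool.Agent.SBG Sy

section

variable {k : ℕ}

/-- The step constant of the central coordinates. -/
def B2 (k : ℕ) (A B : ℤ) : ℤ := B + 40 * A ^ 3 * B + 16 * k * ((A + 40 * A ^ 4 * B) * (40 * A ^ 3 * B))

lemma B2_nonneg (k : ℕ) {A B : ℤ} (hA : 0 ≤ A) (hB : 0 ≤ B) : 0 ≤ B2 k A B := by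
  unfold B2; positivity

lemma siz_aux {n : ℕ} (hn : 1 ≤ n) (A B : ℤ) (hA : 1 ≤ A) (hB : 0 ≤ B) (e x : Gp k)
    (he : ∀ c : Ix k, |e.x (Sum.inl c)| ≤ B * (n : ℤ) ^ (wtI c + 1))
    (he' : ∀ j, |e.x (Sum.inr j)| ≤ B * (n : ℤ) ^ 7)
    (hx : ∀ c : Ix k, |x.x (Sum.inl c)| ≤ A * (n : ℤ) ^ (wtI c))
    (hx' : ∀ j, |x.x (Sum.inr j)| ≤ A * (n : ℤ) ^ 5)
    (N : ℕ) (hN : (N : ℤ) ≤ A * n) (hm : ∀ j : ℕ, j ≤ N → |(x * e ^ j).m| ≤ A * n) :
    ∀ j : ℕ, j ≤ N →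
      (∀ c : Ix k, |(x * e ^ j).x (Sum.inl c)| ≤
        A * (n : ℤ) ^ (wtI c) + j * (40 * A ^ 3 * B * (n : ℤ) ^ (wtI c + 1))) ∧
      ∀ i, |(x * e ^ j).x (Sum.inr i)| ≤ A * (n : ℤ) ^ 5 + j * (B2 k A B * (n : ℤ) ^ 8) := by
  have hn1 : (1 : ℤ) ≤ n := by exact_mod_cast hn
  have hn0 : (0 : ℤ) ≤ n := by linarith
  have hA0 : 0 ≤ A := by linarith
  intro j
  induction j with
  | zero =>
    intro _
    rw [pow_zero, mul_one]
    constructor
    · intro c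
      simpa using hx c
    · intro i
      simpa using hx' i
  | succ j ih =>
    intro hj
    obtain ⟨i1, i2⟩ := ih (by omega)
    have hjA : (j : ℤ) ≤ A * n := by
      have : (j : ℤ) ≤ N := by exact_mod_cast (by omega : j ≤ N)
      linarith
    set g := x * e ^ j with hg
    have hgm : |g.m| ≤ A * n := hm j (by omega)
    have heY : ∀ c : Ix k, |e.x (Sum.inl c)| ≤ (B * n) * (n : ℤ) ^ (wtI c) := fun c => by
      calc |e.x (Sum.inl c)| ≤ B * (n : ℤ) ^ (wtI c + 1) := he c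
        _ = (B * n) * (n : ℤ) ^ (wtI c) := by ring
    obtain ⟨t1, t2⟩ := tp_bound hn e.x (B * n) A (by positivity) hA heY g.m hgm
    have hgV : ∀ c : Ix k, |g.x (Sum.inl c)| ≤ ((A + 40 * A ^ 4 * B) * n ^ 2) * (n : ℤ) ^ (wtI c) := by
      intro c
      have h1 := i1 c
      have h2 : (j : ℤ) * (40 * A ^ 3 * B * (n : ℤ) ^ (wtI c + 1)) ≤
          (A * n) * (40 * A ^ 3 * B * (n : ℤ) ^ (wtI c + 1)) :=
        mul_le_mul_of_nonneg_right hjA (by positivity)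
      have h3 : (n : ℤ) ^ (wtI c) ≤ (n : ℤ) ^ (wtI c + 2) := pow_le_pow_right₀ hn1 (by omega)
      have h4 := mul_le_mul_of_nonneg_left h3 hA0
      calc |g.x (Sum.inl c)| ≤ A * (n : ℤ) ^ (wtI c + 2) +
            (A * n) * (40 * A ^ 3 * B * (n : ℤ) ^ (wtI c + 1)) := by linarith
        _ = ((A + 40 * A ^ 4 * B) * n ^ 2) * (n : ℤ) ^ (wtI c) := by ring
    have hb := bz_bound hn g.x (tp g.m e.x) ((A + 40 * A ^ 4 * B) * n ^ 2)
      (40 * A ^ 3 * (B * n)) (by positivity) (by positivity) hgV t1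
    have hge : x * e ^ (j + 1) = g * e := by rw [hg, pow_succ, mul_assoc]
    rw [hge]
    constructor
    · intro c
      have e1 : (g * e).x (Sum.inl c) = g.x (Sum.inl c) + tp g.m e.x (Sum.inl c) := by
        rw [Gp.mul_x]
        have : (Bf g.x (tp g.m e.x)) (Sum.inl c) = 0 := rfl
        rw [Pi.add_apply, Pi.add_apply, this, add_zero]
      rw [e1]
      have h1 := i1 c
      have h2 := t1 c
      have h3 := abs_add_le (g.x (Sum.inl c)) (tp g.m e.x (Sum.inl c))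
      have h4 : 40 * A ^ 3 * (B * n) * (n : ℤ) ^ (wtI c) =
          40 * A ^ 3 * B * (n : ℤ) ^ (wtI c + 1) := by ring
      rw [h4] at h2
      push_cast
      linarith
    · intro i
      have e1 : (g * e).x (Sum.inr i) = g.x (Sum.inr i) + tp g.m e.x (Sum.inr i) +
          bz g.x (tp g.m e.x) i := by
        rw [Gp.mul_x]
        rfl
      rw [e1]
      have h1 := i2 i
      have h2 := t2 i
      have h2' := he' i
      have h3 := abs_add_le (g.x (Sum.inr i) + tp g.m e.x (Sum.inr i)) (bz g.x (tp g.m e.x) i)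
      have h3' := abs_add_le (g.x (Sum.inr i)) (tp g.m e.x (Sum.inr i))
      have h4 := hb i
      have p1 : (n : ℤ) ^ 7 ≤ (n : ℤ) ^ 8 := pow_le_pow_right₀ hn1 (by norm_num)
      have p2 : (n : ℤ) ^ 5 ≤ (n : ℤ) ^ 8 := pow_le_pow_right₀ hn1 (by norm_num)
      have p3 := mul_le_mul_of_nonneg_left p1 hB
      have p4 : 40 * A ^ 3 * B * (n : ℤ) ^ 5 ≤ 40 * A ^ 3 * B * (n : ℤ) ^ 8 :=
        mul_le_mul_of_nonneg_left p2 (by positivity)
      have h5 : 40 * A ^ 3 * (B * n) * (n : ℤ) ^ 4 = 40 * A ^ 3 * B * (n : ℤ) ^ 5 := by ring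
      have h6 : 16 * (k : ℤ) * ((A + 40 * A ^ 4 * B) * n ^ 2 * (40 * A ^ 3 * (B * n))) * (n : ℤ) ^ 5 =
          16 * k * ((A + 40 * A ^ 4 * B) * (40 * A ^ 3 * B)) * (n : ℤ) ^ 8 := by ring
      rw [h5] at h2
      rw [h6] at h4
      have h7 : ((j + 1 : ℕ) : ℤ) * (B2 k A B * (n : ℤ) ^ 8) = j * (B2 k A B * (n : ℤ) ^ 8) +
          (B * (n : ℤ) ^ 8 + 40 * A ^ 3 * B * (n : ℤ) ^ 8 +
            16 * k * ((A + 40 * A ^ 4 * B) * (40 * A ^ 3 * B)) * (n : ℤ) ^ 8) := by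
        unfold B2
        push_cast
        ring
      rw [h7]
      linarith

lemma siz_fin {n : ℕ} (hn : 1 ≤ n) (A B : ℤ) (hA : 1 ≤ A) (hB : 0 ≤ B) (e x : Gp k)
    (he : ∀ c : Ix k, |e.x (Sum.inl c)| ≤ B * (n : ℤ) ^ (wtI c + 1))
    (he' : ∀ j, |e.x (Sum.inr j)| ≤ B * (n : ℤ) ^ 7)
    (hx : ∀ c : Ix k, |x.x (Sum.inl c)| ≤ A * (n : ℤ) ^ (wtI c))
    (hx' : ∀ j, |x.x (Sum.inr j)| ≤ A * (n : ℤ) ^ 5)
    (N : ℕ) (hN : (N : ℤ) ≤ A * n) (hm : ∀ j : ℕ, j ≤ N → |(x * e ^ j).m| ≤ A * n) :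
      (∀ c : Ix k, |(x * e ^ N).x (Sum.inl c)| ≤
        (A + 40 * A ^ 4 * B + A * B2 k A B) * (n : ℤ) ^ (wtI c + 2)) ∧
      ∀ i, |(x * e ^ N).x (Sum.inr i)| ≤
        (A + 40 * A ^ 4 * B + A * B2 k A B) * (n : ℤ) ^ 9 := by
  have hn1 : (1 : ℤ) ≤ n := by exact_mod_cast hn
  have hn0 : (0 : ℤ) ≤ n := by linarith
  have hA0 : 0 ≤ A := by linarith
  have hB2 := B2_nonneg k hA0 hB
  obtain ⟨i1, i2⟩ := siz_aux hn A B hA hB e x he he' hx hx' N hN hm N le_rfl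
  constructor
  · intro c
    refine (i1 c).trans ?_
    have h2 : (N : ℤ) * (40 * A ^ 3 * B * (n : ℤ) ^ (wtI c + 1)) ≤
        (A * n) * (40 * A ^ 3 * B * (n : ℤ) ^ (wtI c + 1)) :=
      mul_le_mul_of_nonneg_right hN (by positivity)
    have h3 : (n : ℤ) ^ (wtI c) ≤ (n : ℤ) ^ (wtI c + 2) := pow_le_pow_right₀ hn1 (by omega)
    have h4 := mul_le_mul_of_nonneg_left h3 hA0
    have h5 : 0 ≤ A * B2 k A B * (n : ℤ) ^ (wtI c + 2) := by positivity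
    calc A * (n : ℤ) ^ (wtI c) + N * (40 * A ^ 3 * B * (n : ℤ) ^ (wtI c + 1))
        ≤ A * (n : ℤ) ^ (wtI c + 2) + (A * n) * (40 * A ^ 3 * B * (n : ℤ) ^ (wtI c + 1)) +
          A * B2 k A B * (n : ℤ) ^ (wtI c + 2) := by linarith
      _ = (A + 40 * A ^ 4 * B + A * B2 k A B) * (n : ℤ) ^ (wtI c + 2) := by ring
  · intro i
    refine (i2 i).trans ?_
    have h2 : (N : ℤ) * (B2 k A B * (n : ℤ) ^ 8) ≤ (A * n) * (B2 k A B * (n : ℤ) ^ 8) :=
      mul_le_mul_of_nonneg_right hN (by positivity)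
    have h3 : (n : ℤ) ^ 5 ≤ (n : ℤ) ^ 9 := pow_le_pow_right₀ hn1 (by norm_num)
    have h4 := mul_le_mul_of_nonneg_left h3 hA0
    have h5 : 0 ≤ 40 * A ^ 4 * B * (n : ℤ) ^ 9 := by positivity
    calc A * (n : ℤ) ^ 5 + N * (B2 k A B * (n : ℤ) ^ 8)
        ≤ A * (n : ℤ) ^ 9 + 40 * A ^ 4 * B * (n : ℤ) ^ 9 + (A * n) * (B2 k A B * (n : ℤ) ^ 8) := by
          linarith
      _ = (A + 40 * A ^ 4 * B + A * B2 k A B) * (n : ℤ) ^ 9 := by ring

lemma pow_m (h : Gp k) (j : ℕ) : (h ^ j).m = j * h.m := by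
  induction j with
  | zero => simp
  | succ j ih => rw [pow_succ, Gp.mul_m, ih]; push_cast; ring

end

theorem siz : SizStmt := by
  intro k A
  obtain ⟨C, hC⟩ : ∃ C : ℕ, (A : ℤ) + 40 * A ^ 4 * (A + 40 * A ^ 4) +
      A * B2 k A (A + 40 * A ^ 4) = C := by
    apply Int.eq_ofNat_of_zero_le
    have := B2_nonneg k (A := (A : ℤ)) (B := A + 40 * A ^ 4) (by positivity) (by positivity)
    positivity
  refine ⟨C, ?_⟩
  intro n hn h x hm0 hm hh hh' hxm hx l hl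
  have hn1 : (1 : ℤ) ≤ n := by exact_mod_cast hn
  have hn0 : (0 : ℤ) ≤ n := by linarith
  have hA : (1 : ℤ) ≤ A := by
    by_contra hA
    have h1 : (A : ℤ) = 0 := by
      have : (0 : ℤ) ≤ A := Int.natCast_nonneg A
      omega
    rw [h1, zero_mul] at hm
    omega
  have hB : (0 : ℤ) ≤ A + 40 * A ^ 4 := by positivity
  rw [← hC]
  have hx1 : ∀ c : Ix k, |x.x (Sum.inl c)| ≤ A * (n : ℤ) ^ (wtI c) := fun c => hx (Sum.inl c)
  have hx2 : ∀ j, |x.x (Sum.inr j)| ≤ A * (n : ℤ) ^ 5 := fun j => hx (Sum.inr j)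
  rcases le_total 0 l with hl0 | hl0
  · -- `e = h⁻¹`
    obtain ⟨N, rfl⟩ := Int.eq_ofNat_of_zero_le hl0
    have e1 : h ^ (-(N : ℤ)) = (h⁻¹) ^ N := by
      rw [zpow_neg, zpow_natCast, inv_pow]
    have hYh : ∀ c : Ix k, |h.x (Sum.inl c)| ≤ (A * n) * (n : ℤ) ^ (wtI c) := fun c => by
      calc |h.x (Sum.inl c)| ≤ A * (n : ℤ) ^ (wtI c + 1) := hh c
        _ = (A * n) * (n : ℤ) ^ (wtI c) := by ring
    obtain ⟨t1, t2⟩ := tp_bound hn h.x (A * n) A (by positivity) hA hYh (-h.m)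
      (by rw [abs_neg, abs_of_pos hm0]; exact hm)
    have he : ∀ c : Ix k, |(h⁻¹).x (Sum.inl c)| ≤ (A + 40 * A ^ 4) * (n : ℤ) ^ (wtI c + 1) := by
      intro c
      rw [Gp.inv_x, Pi.neg_apply, abs_neg]
      refine (t1 c).trans ?_
      have h1 : 0 ≤ (A : ℤ) * (n : ℤ) ^ (wtI c + 1) := by positivity
      calc 40 * (A : ℤ) ^ 3 * (A * n) * (n : ℤ) ^ (wtI c)
          ≤ 40 * (A : ℤ) ^ 3 * (A * n) * (n : ℤ) ^ (wtI c) + A * (n : ℤ) ^ (wtI c + 1) := by linarith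
        _ = _ := by ring
    have he' : ∀ j, |(h⁻¹).x (Sum.inr j)| ≤ (A + 40 * A ^ 4) * (n : ℤ) ^ 7 := by
      intro j
      rw [Gp.inv_x, Pi.neg_apply, abs_neg]
      refine (t2 j).trans ?_
      have h1 := hh' j
      have p1 : (n : ℤ) ^ 5 ≤ (n : ℤ) ^ 7 := pow_le_pow_right₀ hn1 (by norm_num)
      have p2 : 40 * (A : ℤ) ^ 4 * (n : ℤ) ^ 5 ≤ 40 * (A : ℤ) ^ 4 * (n : ℤ) ^ 7 :=
        mul_le_mul_of_nonneg_left p1 (by positivity)
      have h2 : 40 * (A : ℤ) ^ 3 * (A * n) * (n : ℤ) ^ 4 = 40 * (A : ℤ) ^ 4 * (n : ℤ) ^ 5 := by ring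
      rw [h2]
      linarith
    have hmj : ∀ j : ℕ, (x * (h⁻¹) ^ j).m = ((N : ℤ) - j) * h.m := by
      intro j
      rw [Gp.mul_m, pow_m, Gp.inv_m, hl]
      ring
    rw [e1]
    have hN : (N : ℤ) ≤ A * n := by
      rw [hl, abs_mul, abs_of_pos hm0, Nat.abs_cast] at hxm
      have : (N : ℤ) * 1 ≤ N * h.m := mul_le_mul_of_nonneg_left hm0 (by positivity)
      linarith
    obtain ⟨f1, f2⟩ := siz_fin hn A (A + 40 * A ^ 4) hA hB h⁻¹ x he he' hx1 hx2 N hN (by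
      intro j hj
      have hj' : (j : ℤ) ≤ N := by exact_mod_cast hj
      rw [hmj, abs_mul, abs_of_pos hm0, abs_of_nonneg (by linarith)]
      rw [hl, abs_mul, abs_of_pos hm0, Nat.abs_cast] at hxm
      have : ((N : ℤ) - j) * h.m ≤ N * h.m :=
        mul_le_mul_of_nonneg_right (by linarith [Int.natCast_nonneg j]) hm0.le
      linarith)
    refine ⟨?_, f1, f2⟩
    rw [hmj, sub_self, zero_mul]
  · -- `e = h`
    obtain ⟨N, hN'⟩ := Int.eq_ofNat_of_zero_le (by linarith : 0 ≤ -l)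
    have hl' : l = -(N : ℤ) := by
      have : -l = (N : ℤ) := hN'
      linarith
    subst hl'
    have e1 : h ^ (-(-(N : ℤ))) = h ^ N := by
      rw [neg_neg, zpow_natCast]
    have he : ∀ c : Ix k, |h.x (Sum.inl c)| ≤ (A + 40 * A ^ 4) * (n : ℤ) ^ (wtI c + 1) := by
      intro c
      refine (hh c).trans ?_
      apply mul_le_mul_of_nonneg_right _ (by positivity)
      have : (0 : ℤ) ≤ 40 * A ^ 4 := by positivity
      linarith
    have he' : ∀ j, |h.x (Sum.inr j)| ≤ (A + 40 * A ^ 4) * (n : ℤ) ^ 7 := by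
      intro j
      refine (hh' j).trans ?_
      apply mul_le_mul_of_nonneg_right _ (by positivity)
      have : (0 : ℤ) ≤ 40 * A ^ 4 := by positivity
      linarith
    have hmj : ∀ j : ℕ, (x * h ^ j).m = -(((N : ℤ) - j) * h.m) := by
      intro j
      rw [Gp.mul_m, pow_m, hl]
      ring
    rw [e1]
    have hN : (N : ℤ) ≤ A * n := by
      rw [hl, neg_mul, abs_neg, abs_mul, abs_of_pos hm0, Nat.abs_cast] at hxm
      have : (N : ℤ) * 1 ≤ N * h.m := mul_le_mul_of_nonneg_left hm0 (by positivity)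
      linarith
    obtain ⟨f1, f2⟩ := siz_fin hn A (A + 40 * A ^ 4) hA hB h x he he' hx1 hx2 N hN (by
      intro j hj
      have hj' : (j : ℤ) ≤ N := by exact_mod_cast hj
      rw [hmj, abs_neg, abs_mul, abs_of_pos hm0, abs_of_nonneg (by linarith)]
      rw [hl, neg_mul, abs_neg, abs_mul, abs_of_pos hm0, Nat.abs_cast] at hxm
      have : ((N : ℤ) - j) * h.m ≤ N * h.m :=
        mul_le_mul_of_nonneg_right (by linarith [Int.natCast_nonneg j]) hm0.le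
      linarith)
    refine ⟨?_, f1, f2⟩
    rw [hmj, sub_self, zero_mul, neg_zero]

end Pool.Agent.SBG.H69
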